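import Pool.Agent.H55.CU.Targets

/-!
# The sharp upper bound of the slope of the copolymer critical curve: the row BS0 (the base)
-/

set_option autoImplicit false

namespace Pool.Agent.H74.CU

open MeasureTheory ProbabilityTheory Filter Topology Pool.Agent.H95 Pool.Agent.H95.Cop
  Pool.Agent.H96.Cop Pool.Agent.H55.CU
open scoped ENNReal

private theorem th_zero (α : ℝ) (h : 0 < α) : th α 0 = 1 := by
  unfold th
  rw [pow_zero, div_one, div_self (by linarith)]

private theorem ZZ_pos {α c : ℝ} {k : ℕ} (hc : 0 < c) (hk : 1 ≤ k) : 0 < ZZ α c k := by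
  unfold ZZ
  have : (0 : ℝ) < k := by exact_mod_cast hk
  positivity

/-- the weight of a long excursion above the interface -/
private theorem wt_le {K : PMF ℕ} {α c : ℝ} {n0 k : ℕ} (hα : 0 < α) (hc : 0 < c)
    (hKB : KB K α c n0) (hk : 1 ≤ k) (hn : n0 ≤ k) (j m : ℕ) (_ : 1 ≤ j) (hkm : k < m)
    (hjm : (j - 1) * k < m) : kk K m / 2 ≤ ga α j / ZZ α c k := by
  have hk0 : (0 : ℝ) < k := by exact_mod_cast hk
  have h1 := (hKB m (by omega)).2
  have hM : max (j - 1) 1 * k ≤ m := by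
    rcases le_total (j - 1) 1 with h | h
    · rw [max_eq_right h, one_mul]
      exact hkm.le
    · rw [max_eq_left h]
      exact hjm.le
  have hM1 : (1 : ℝ) ≤ ((max (j - 1) 1 : ℕ) : ℝ) := by
    exact_mod_cast le_max_right _ _
  have hMk : ((max (j - 1) 1 : ℕ) : ℝ) * k ≤ m := by exact_mod_cast hM
  have h2 : (m : ℝ) ^ (-(1 + α)) ≤ (((max (j - 1) 1 : ℕ) : ℝ) * k) ^ (-(1 + α)) :=
    Real.rpow_le_rpow_of_nonpos (by positivity) hMk (by linarith)
  have h3 : ga α j / ZZ α c k = 9 / 16 * c * (((max (j - 1) 1 : ℕ) : ℝ) * k) ^ (-(1 + α)) := by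
    unfold ga ZZ
    rw [Real.mul_rpow (by positivity) (by positivity), Real.rpow_neg hk0.le (1 + α)]
    field_simp
  rw [h3]
  have h4 := mul_le_mul_of_nonneg_left h2 (by positivity : (0 : ℝ) ≤ 9 / 16 * c)
  linarith

/-- the numbers -/
private theorem num1 {α c : ℝ} {k : ℕ} (hα : 0 < α) (hc : 0 < c) (hk : 1 ≤ k) :
    (k : ℝ) / (13 / 16 * (c / α) * (k : ℝ) ^ (-α)) / ZZ α c k = 16 / 13 * α := by
  have hk0 : (0 : ℝ) < k := by exact_mod_cast hk
  unfold ZZ
  rw [Real.rpow_neg hk0.le, Real.rpow_add hk0, Real.rpow_one]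
  have := Real.rpow_pos_of_pos hk0 α
  field_simp

private theorem num2 {α c : ℝ} {k : ℕ} (hα : 0 < α) (hc : 0 < c) (hk : 1 ≤ k) (E : ℝ)
    (hE : 0 ≤ E) : 3 * (23 * c * (k : ℝ) ^ (1 - α)) / (3 / 4 * (c / α) * (k : ℝ) ^ (-α)) ^ 2 * E /
      ZZ α c k ≤ 123 * α ^ 2 * E := by
  have hk0 : (0 : ℝ) < k := by exact_mod_cast hk
  have hp := Real.rpow_pos_of_pos hk0 α
  have h1 : 3 * (23 * c * (k : ℝ) ^ (1 - α)) / (3 / 4 * (c / α) * (k : ℝ) ^ (-α)) ^ 2 * E /
      ZZ α c k = 368 / 3 * (α ^ 2 * E) := by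
    unfold ZZ
    rw [Real.rpow_neg hk0.le, Real.rpow_add hk0, Real.rpow_sub hk0, Real.rpow_one]
    field_simp
    norm_num
    ring
  rw [h1]
  have h2 : 0 ≤ α ^ 2 * E := by positivity
  nlinarith

theorem pf_BS0 (hUNR : T_UNR) (hVDC : T_VDC) (hVMS : T_VMS) (hKME : T_KME) (hVBA : T_VBA)
    (hVBP : T_VBP) (hGAS : T_GAS) : T_BS0 := by
  intro K hK0 ν _ α c n0 k b hα hα' hc hKB hk hn hnc hb hbk hMo a
  have hα12 : α ≤ 1 / 2 ^ 12 := le_trans hα' (by norm_num)
  have hk0 : (0 : ℝ) < k := by exact_mod_cast hk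
  have hZ : 0 < ZZ α c k := ZZ_pos hc hk
  have hkhr : ∀ n, 0 ≤ khr K k b n := khr_nonneg K k b
  have hk0n : ∀ n, 0 ≤ k0 K k b n := by
    intro n
    unfold k0
    split_ifs
    · exact hkhr n
    · exact le_rfl
  have hVR : ∀ (κ : ℕ → ℝ), (∀ n, 0 ≤ κ n) → ∀ a, 0 ≤ VR κ k a := by
    intro κ hκ a
    unfold VR
    refine Finset.sum_nonneg fun e _ => Finset.sum_nonneg fun r _ => ?_
    split_ifs
    · exact uu_nonneg κ hκ _
    · exact le_rfl
  obtain ⟨hga0, -, -⟩ := hGAS α hα hα12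
  have hkme := hKME K hK0 α c n0 k b hα hα12 hc hKB hk hn hnc hb hbk
  obtain ⟨hvm1, hvm2⟩ := hVMS (k0 K k b) k hk0n hk
  -- the normalised masses
  have hv0 : ∀ a, 0 ≤ VR (k0 K k b) k a / ZZ α c k := fun a => div_nonneg (hVR _ hk0n a) hZ.le
  have hv : ∀ a, 0 ≤ VR (khr K k b) k a / ZZ α c k := fun a => div_nonneg (hVR _ hkhr a) hZ.le
  have hs0 : ∀ n, ∑ a ∈ Finset.range n, VR (k0 K k b) k a / ZZ α c k ≤ 16 / 13 * α := by
    intro n
    rw [← Finset.sum_div, ← num1 hα hc hk]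
    exact div_le_div_of_nonneg_right (hvm1 _ (by positivity) (fun N => (hkme N).1) n) hZ.le
  have hp0 : ∀ a : ℕ, 1 ≤ a → VR (k0 K k b) k a / ZZ α c k ≤
      123 * α ^ 2 * Real.exp (-(a : ℝ)) := by
    intro a ha
    refine le_trans (div_le_div_of_nonneg_right (hvm2 (3 / 4 * (c / α) * (k : ℝ) ^ (-α))
      (23 * c * (k : ℝ) ^ (1 - α)) (by positivity) (fun N => (hkme N).2.1)
      (fun N => (hkme N).2.2) a ha) hZ.le) ?_
    exact num2 hα hc hk _ (Real.exp_pos _).le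
  have hren : ∀ a, VR (khr K k b) k a / ZZ α c k ≤ VR (k0 K k b) k a / ZZ α c k +
      ∑ i ∈ Finset.range (a + 1), ∑ j ∈ Finset.Icc 1 a, if i + j ≤ a then
        VR (k0 K k b) k i / ZZ α c k * ga α j * (VR (khr K k b) k (a - i - j) / ZZ α c k)
        else 0 := by
    intro a
    have h1 := hVDC K k b hk (fun j => ga α j / ZZ α c k)
      (fun j => div_nonneg (hga0 j) hZ.le)
      (fun j m hj hkm hjm _ => wt_le hα hc hKB hk hn j m hj hkm hjm) a
    refine le_trans (div_le_div_of_nonneg_right h1 hZ.le) (le_of_eq ?_)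
    rw [add_div, Finset.sum_div]
    congr 1
    refine Finset.sum_congr rfl fun i _ => ?_
    rw [Finset.sum_div]
    refine Finset.sum_congr rfl fun j _ => ?_
    split_ifs
    · field_simp
    · rw [zero_div]
  have hA := hVBA α (fun a => VR (k0 K k b) k a / ZZ α c k)
    (fun a => VR (khr K k b) k a / ZZ α c k) hα hα12 hv0 hv hs0 hren
  have hP := hVBP α (fun a => VR (k0 K k b) k a / ZZ α c k)
    (fun a => VR (khr K k b) k a / ZZ α c k) hα hα12 hv0 hv hs0 hp0 hren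
  -- the real bound
  have hreal : 3 * VR (khr K k b) k a ≤ ZZ α c k * (dd (cc α) 0 a * nn α a) := by
    by_cases ha : a = 0
    · subst ha
      have h1 := hA.2
      rw [div_le_iff₀ hZ] at h1
      have h2 : dd (cc α) 0 0 * nn α 0 = 6 * α := by
        unfold dd nn
        simp
      rw [h2]
      nlinarith
    · have h1 := hP a (by omega)
      rw [div_le_iff₀ hZ] at h1
      have h2 : dd (cc α) 0 a * nn α a =
          2 ^ 21 * (α ^ 2 * (1 + (a : ℝ)) ^ (-(1 + α))) := by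
        unfold dd nn
        rw [if_neg ha, if_neg ha]
        simp
      rw [h2]
      have h3 : 0 ≤ ZZ α c k * (α ^ 2 * (1 + (a : ℝ)) ^ (-(1 + α))) := by positivity
      nlinarith
  -- the integral
  rw [th_zero α hα]
  simp only [ENNReal.rpow_one, Real.rpow_one, pow_zero, mul_one]
  have hB1 : (1 : ℝ≥0∞) ≤ ENNReal.ofReal (Real.exp b) := by
    rw [← ENNReal.ofReal_one]
    exact ENNReal.ofReal_le_ofReal (Real.one_le_exp hb)
  have hPhi : ∀ x, PL K k k a x = Phi K k a x := fun x => rfl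
  simp only [hPhi]
  refine le_trans (lint_Phi ν K k _ hB1 hMo a) ?_
  rw [hUNR K k b a, ← ENNReal.ofReal_pow (Real.exp_pos b).le,
    ← ENNReal.ofReal_mul (by positivity)]
  refine ENNReal.ofReal_le_ofReal (le_trans ?_ hreal)
  refine mul_le_mul_of_nonneg_right ?_ (hVR _ hkhr a)
  rw [← Real.exp_nat_mul]
  have h1 : Real.exp (((2 * k : ℕ) : ℝ) * b) ≤ Real.exp 1 := by
    refine Real.exp_le_exp.2 ?_
    push_cast
    linarith
  have h2 := Real.exp_one_lt_d9
  linarith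

end Pool.Agent.H74.CU
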